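import Mathlib

set_option autoImplicit false

open Set Topology Filter

namespace Helper9Wfc

/-- `V` is a weak base (Arhangel'skii) of the space `X`: decreasing sequences of sets containing
their point, which decide which sets are open. -/
def IsWeakBase {X : Type*} [TopologicalSpace X] (V : X → ℕ → Set X) : Prop :=
  (∀ x n, V x (n + 1) ⊆ V x n) ∧ (∀ x n, x ∈ V x n) ∧
    ∀ O : Set X, IsOpen O ↔ ∀ x ∈ O, ∃ n, V x n ⊆ O

variable {X : Type*} [TopologicalSpace X] {V : X → ℕ → Set X}

theorem IsWeakBase.anti (hV : IsWeakBase V) (x : X) : Antitone (V x) :=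
  antitone_nat_of_succ_le (hV.1 x)

theorem IsWeakBase.exists_sub (hV : IsWeakBase V) {O : Set X} (hO : IsOpen O) {x : X}
    (hx : x ∈ O) : ∃ n, V x n ⊆ O :=
  (hV.2.2 O).1 hO x hx

/-- a sequence with `u n ∈ V x n` converges to `x` -/
theorem IsWeakBase.tendsto (hV : IsWeakBase V) {x : X} {u : ℕ → X} (hu : ∀ n, u n ∈ V x n) :
    Tendsto u atTop (𝓝 x) := by
  rw [tendsto_nhds]
  intro O hO hx
  obtain ⟨m, hm⟩ := hV.exists_sub hO hx
  filter_upwards [eventually_ge_atTop m] with n hn
  exact hm (hV.anti x hn (hu n))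

theorem IsWeakBase.sequentialSpace (hV : IsWeakBase V) : SequentialSpace X := by
  refine ⟨fun A hA => ?_⟩
  rw [← isOpen_compl_iff, hV.2.2]
  intro x hx
  by_contra hcon
  push Not at hcon
  have : ∀ n, ∃ u, u ∈ V x n ∧ u ∈ A := fun n => by
    obtain ⟨u, hu1, hu2⟩ := Set.not_subset.1 (hcon n)
    exact ⟨u, hu1, by simpa using hu2⟩
  choose u hu1 hu2 using this
  exact hx (hA hu2 (hV.tendsto hu1))

/-- in Hausdorff spaces a convergent sequence is eventually in each member of the weak base -/
theorem IsWeakBase.eventually_mem [T2Space X] (hV : IsWeakBase V) {x : X} {u : ℕ → X}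
    (hu : Tendsto u atTop (𝓝 x)) (n : ℕ) : ∀ᶠ k in atTop, u k ∈ V x n := by
  by_contra hcon
  rw [not_eventually] at hcon
  obtain ⟨φ, hφ, hφ'⟩ := extraction_of_frequently_atTop hcon
  have hv : Tendsto (u ∘ φ) atTop (𝓝 x) := hu.comp hφ.tendsto_atTop
  have hcl : IsClosed (insert x (range (u ∘ φ))) := hv.isCompact_insert_range.isClosed
  have hopen : IsOpen (range (u ∘ φ))ᶜ := by
    rw [hV.2.2]
    intro y hy
    by_cases hyx : y = x
    · subst hyx
      refine ⟨n, ?_⟩
      rintro z hz ⟨k, rfl⟩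
      exact hφ' k hz
    · have hy' : y ∈ (insert x (range (u ∘ φ)))ᶜ := by
        simp only [mem_compl_iff, mem_insert_iff, not_or]
        exact ⟨hyx, hy⟩
      obtain ⟨m, hm⟩ := hV.exists_sub hcl.isOpen_compl hy'
      exact ⟨m, hm.trans (compl_subset_compl.2 (subset_insert _ _))⟩
  have hmem : x ∈ range (u ∘ φ) := by
    have hc : IsClosed (range (u ∘ φ)) := isOpen_compl_iff.1 hopen
    exact hc.mem_of_tendsto hv (Eventually.of_forall fun k => mem_range_self k)
  obtain ⟨k, hk⟩ := hmem
  apply hφ' k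
  have : u (φ k) = x := hk
  rw [this]
  exact hV.2.1 x n

/-- the traces of a weak base on a closed subspace form a weak base -/
theorem IsWeakBase.comap_closed (hV : IsWeakBase V) {S : Set X} (hS : IsClosed S) :
    IsWeakBase (fun (x : S) n => (Subtype.val ⁻¹' V (x : X) n : Set S)) := by
  refine ⟨fun x n => preimage_mono (hV.1 x n), fun x n => hV.2.1 x n, fun O => ?_⟩
  constructor
  · intro hO x hx
    obtain ⟨O', hO', rfl⟩ := isOpen_induced_iff.1 hO
    obtain ⟨n, hn⟩ := hV.exists_sub hO' hx
    exact ⟨n, preimage_mono hn⟩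
  · intro h
    have h1 : IsOpen (Subtype.val '' O ∪ Sᶜ) := by
      rw [hV.2.2]
      rintro x (⟨y, hy, rfl⟩ | hx)
      · obtain ⟨n, hn⟩ := h y hy
        refine ⟨n, fun z hz => ?_⟩
        by_cases hzS : z ∈ S
        · exact Or.inl ⟨⟨z, hzS⟩, hn hz, rfl⟩
        · exact Or.inr hzS
      · obtain ⟨n, hn⟩ := hV.exists_sub hS.isOpen_compl hx
        exact ⟨n, hn.trans subset_union_right⟩
    have h2 : O = Subtype.val ⁻¹' (Subtype.val '' O ∪ Sᶜ) := by
      ext y
      constructor
      · exact fun hy => Or.inl ⟨y, hy, rfl⟩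
      · rintro (⟨z, hz, hzy⟩ | hy)
        · rwa [← Subtype.ext hzy]
        · exact absurd y.2 hy
    rw [h2]
    exact h1.preimage continuous_subtype_val

/-- countable tightness of sequential spaces -/
theorem countable_tight [SequentialSpace X] {A : Set X} {p : X} (hp : p ∈ closure A) :
    ∃ B ⊆ A, B.Countable ∧ p ∈ closure B := by
  let T : Set X := {x | ∃ B ⊆ A, B.Countable ∧ x ∈ closure B}
  have hT : IsClosed T := by
    rw [← isSeqClosed_iff_isClosed]
    intro x y hx hxy
    choose B hB1 hB2 hB3 using hx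
    refine ⟨⋃ n, B n, iUnion_subset hB1, countable_iUnion hB2, ?_⟩
    have : ∀ n, x n ∈ closure (⋃ n, B n) := fun n =>
      closure_mono (subset_iUnion B n) (hB3 n)
    exact isClosed_closure.mem_of_tendsto hxy (Eventually.of_forall this)
  have hAT : A ⊆ T := fun a ha => ⟨{a}, by simpa using ha, countable_singleton a,
    subset_closure rfl⟩
  exact closure_minimal hAT hT hp

/-- in a sequential `T1` space a point `p` in the closure of `A ∌ p` is the limit of a sequence of
points of `closure A` other than `p` -/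
theorem exists_seq_closure [SequentialSpace X] [T1Space X] {A : Set X} {p : X}
    (hp : p ∈ closure A) (hpA : p ∉ A) :
    ∃ u : ℕ → X, (∀ k, u k ∈ closure A) ∧ (∀ k, u k ≠ p) ∧ Tendsto u atTop (𝓝 p) := by
  have h1 : ¬ IsClosed (closure A \ {p}) := by
    intro hcl
    have : closure A ⊆ closure A \ {p} :=
      closure_minimal (fun a ha => ⟨subset_closure ha, fun h => hpA (by rwa [mem_singleton_iff.1 h] at ha)⟩) hcl
    exact (this hp).2 rfl
  rw [← isSeqClosed_iff_isClosed] at h1
  simp only [IsSeqClosed] at h1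
  push Not at h1
  obtain ⟨u, q, hu, huq, hq⟩ := h1
  have hqc : q ∈ closure A :=
    isClosed_closure.mem_of_tendsto huq (Eventually.of_forall fun k => (hu k).1)
  have hqp : q = p := by
    by_contra hne
    exact hq ⟨hqc, hne⟩
  subst hqp
  exact ⟨u, fun k => (hu k).1, fun k => (hu k).2, huq⟩

end Helper9Wfc
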