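import Pool.Agent.Helper9Wfc.Basic

set_option autoImplicit false

open Set Topology Filter

namespace Helper9Wfc

/-- van Douwen's property wD, in the form with locally finite families: every infinite closed
discrete set has an infinite subset whose points have open neighbourhoods that form a locally
finite family. -/
def WD (Y : Type*) [TopologicalSpace Y] : Prop :=
  ∀ D : Set Y, D.Infinite → IsClosed D → DiscreteTopology D →
    ∃ D' ⊆ D, D'.Infinite ∧ ∃ U : Y → Set Y, (∀ d ∈ D', IsOpen (U d) ∧ d ∈ U d) ∧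
      LocallyFinite (fun d : D' => U d)

/-- closures of countable sets have property wD -/
def SepWD (Y : Type*) [TopologicalSpace Y] : Prop :=
  ∀ A : Set Y, A.Countable → WD (closure A)

theorem core {X Y : Type*} [TopologicalSpace X] [CompactSpace X] [T2Space X]
    [TopologicalSpace Y] {ι : Y → X} (hι : IsEmbedding ι) (hY : WD Y) {p : X} {A : Set X}
    (hp : p ∉ range ι) (hA : A ⊆ range ι) (hcl : closure A ⊆ insert p (range ι)) {u : ℕ → X}
    (hu : ∀ k, u k ∈ closure A) (hup : ∀ k, u k ≠ p) (hlim : Tendsto u atTop (𝓝 p)) :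
    ∃ a : ℕ → X, (∀ k, a k ∈ A) ∧ Tendsto a atTop (𝓝 p) := by
  have : T2Space Y := T2Space.of_injective_continuous hι.injective hι.continuous
  have huι : range u ⊆ range ι := by
    rintro _ ⟨k, rfl⟩
    rcases hcl (hu k) with h | h
    · exact absurd h (hup k)
    · exact h
  -- points other than `p` have neighbourhoods that meet `range u` in a finite set
  have hfin : ∀ x, x ≠ p → ∃ O, IsOpen O ∧ x ∈ O ∧ (O ∩ range u).Finite := by
    intro x hx
    obtain ⟨O, O', hO, hO', hxO, hpO', hdis⟩ := t2_separation hx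
    refine ⟨O, hO, hxO, ?_⟩
    obtain ⟨N, hN⟩ := eventually_atTop.1 (hlim.eventually (hO'.mem_nhds hpO'))
    refine ((finite_Iio N).image u).subset ?_
    rintro _ ⟨h1, ⟨k, rfl⟩⟩
    refine ⟨k, ?_, rfl⟩
    by_contra hk
    exact hdis.le_bot ⟨h1, hN k (not_lt.1 hk)⟩
  let D : Set Y := ι ⁻¹' range u
  have hDinf : D.Infinite := by
    intro hD
    have h1 : (range u).Finite := by
      rw [← image_preimage_eq_of_subset huι]
      exact hD.image ι
    have h2 : p ∈ range u :=
      h1.isClosed.mem_of_tendsto hlim (Eventually.of_forall fun k => mem_range_self k)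
    obtain ⟨k, hk⟩ := h2
    exact hup k hk
  have hDcl : IsClosed D := by
    have h1 : D = ι ⁻¹' (insert p (range u)) := by
      ext y
      simp only [D, mem_preimage, mem_insert_iff]
      constructor
      · exact fun h => Or.inr h
      · rintro (h | h)
        · exact absurd ⟨y, h⟩ hp
        · exact h
    rw [h1]
    exact hlim.isCompact_insert_range.isClosed.preimage hι.continuous
  have hDdis : DiscreteTopology D := by
    rw [discreteTopology_iff_isOpen_singleton]
    rintro ⟨d, hd⟩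
    obtain ⟨O, hO, hdO, hOfin⟩ := hfin (ι d) (by rintro h; exact hp ⟨d, h⟩)
    have h1 : (ι ⁻¹' O ∩ D).Finite := by
      have : (ι ⁻¹' (O ∩ range u)).Finite := hOfin.preimage hι.injective.injOn
      exact this
    have h2 : IsClosed ((ι ⁻¹' O ∩ D) \ {d}) := (h1.subset Set.sdiff_subset).isClosed
    have h3 : ({⟨d, hd⟩} : Set D) =
        Subtype.val ⁻¹' (ι ⁻¹' O \ ((ι ⁻¹' O ∩ D) \ {d})) := by
      ext ⟨y, hy⟩
      simp only [mem_singleton_iff, Subtype.mk.injEq, mem_preimage, Set.mem_sdiff, mem_inter_iff,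
        not_and, not_not]
      constructor
      · rintro rfl
        exact ⟨hdO, fun _ => rfl⟩
      · rintro ⟨h4, h5⟩
        exact h5 ⟨h4, hy⟩
    rw [h3]
    exact ((hO.preimage hι.continuous).sdiff h2).preimage continuous_subtype_val
  obtain ⟨D', hD', hD'inf, U, hU, hlf⟩ := hY D hDinf hDcl hDdis
  have hch : ∀ d : D', ∃ y : Y, ι y ∈ A ∧ y ∈ U d := by
    rintro ⟨d, hd⟩
    obtain ⟨hUo, hdU⟩ := hU d hd
    obtain ⟨W, hW, hWU⟩ := hι.isOpen_iff.1 hUo
    have hdA : ι d ∈ closure A := by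
      obtain ⟨k, hk⟩ := hD' hd
      rw [← hk]
      exact hu k
    have hdW : ι d ∈ W := by
      have : d ∈ ι ⁻¹' W := by rw [hWU]; exact hdU
      exact this
    obtain ⟨a, haW, haA⟩ := mem_closure_iff.1 hdA W hW hdW
    obtain ⟨y, rfl⟩ := hA haA
    refine ⟨y, haA, ?_⟩
    have : y ∈ ι ⁻¹' W := haW
    rwa [hWU] at this
  choose y hyA hyU using hch
  let e : ℕ ↪ D' := hD'inf.natEmbedding D'
  refine ⟨fun k => ι (y (e k)), fun k => hyA _, ?_⟩
  apply tendsto_nhds_of_unique_mapClusterPt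
  intro x hx
  by_contra hxp
  have hxA : x ∈ closure A := by
    rw [mem_closure_iff_nhds]
    intro t ht
    obtain ⟨k, hk⟩ := (mapClusterPt_iff_frequently.1 hx t ht).exists
    exact ⟨_, hk, hyA _⟩
  obtain ⟨y0, rfl⟩ : x ∈ range ι := (hcl hxA).resolve_left hxp
  obtain ⟨t, ht, htf⟩ := hlf y0
  rw [hι.nhds_eq_comap, mem_comap] at ht
  obtain ⟨W, hW, hWt⟩ := ht
  have hfreq := mapClusterPt_iff_frequently.1 hx W hW
  have hinf : {k | ι (y (e k)) ∈ W}.Infinite := Nat.frequently_atTop_iff_infinite.1 hfreq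
  have hsub : {k | ι (y (e k)) ∈ W} ⊆ e ⁻¹' {d : D' | (U d ∩ t).Nonempty} := by
    intro k hk
    exact ⟨y (e k), hyU _, hWt hk⟩
  exact hinf ((htf.preimage e.injective.injOn).subset hsub)

/-- countably many closed sets that miss `p` cover `E \ {p}` -/
def Shell {X : Type*} [TopologicalSpace X] (p : X) (E : Set X) : Prop :=
  ∃ K : ℕ → Set X, (∀ i, IsClosed (K i)) ∧ (∀ i, p ∉ K i) ∧ E \ {p} ⊆ ⋃ i, K i

/-- fattening the closed sets -/
theorem Shell.exists_open {X : Type*} [TopologicalSpace X] [T2Space X] [CompactSpace X] {p : X}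
    {E : Set X} (h : Shell p E) : ∃ W : ℕ → Set X, (∀ i, IsOpen (W i)) ∧
      (∀ i, p ∉ closure (W i)) ∧ E \ {p} ⊆ ⋃ i, W i := by
  obtain ⟨K, hK, hpK, hE⟩ := h
  have : ∀ i, ∃ W, IsOpen W ∧ K i ⊆ W ∧ p ∉ closure W := by
    intro i
    obtain ⟨W, hW, hKW, hcl⟩ := normal_exists_closure_subset (hK i)
      (isOpen_compl_singleton (x := p)) (by
        intro x hx hxp
        rw [mem_singleton_iff] at hxp
        exact hpK i (hxp ▸ hx))
    exact ⟨W, hW, hKW, fun hpW => hcl hpW rfl⟩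
  choose W hW hKW hpW using this
  exact ⟨W, hW, hpW, hE.trans (iUnion_mono hKW)⟩

theorem Shell.iUnion {X : Type*} [TopologicalSpace X] {p : X} {E' : ℕ → Set X} {E : Set X}
    (h : ∀ j, Shell p (E' j)) (hE : E ⊆ ⋃ j, E' j) : Shell p E := by
  choose K hK hpK hKE using h
  refine ⟨fun m => K (Nat.unpair m).1 (Nat.unpair m).2, fun i => hK _ _, fun i => hpK _ _, ?_⟩
  rintro x ⟨hx, hxp⟩
  obtain ⟨j, hj⟩ := mem_iUnion.1 (hE hx)
  obtain ⟨i, hi⟩ := mem_iUnion.1 (hKE j ⟨hj, hxp⟩)
  refine mem_iUnion.2 ⟨Nat.pair j i, ?_⟩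
  simpa using hi

/-- the step, with the Frechet condition at `p` -/
theorem Shell.stepFrechet {X : Type*} [TopologicalSpace X] [T2Space X] [CompactSpace X]
    {V : X → ℕ → Set X} (hV : IsWeakBase V) {p : X} {F E : Set X} (hF : Shell p F) (hpF : p ∈ F)
    (hFE : F ⊆ E) (hE : IsClosed E)
    (hFr : ∀ A ⊆ E \ F, A.Countable → p ∈ closure A → closure A ∩ F ⊆ {p} →
      ∃ a : ℕ → X, (∀ k, a k ∈ A) ∧ Tendsto a atTop (𝓝 p)) : Shell p E := by
  have hseq : SequentialSpace X := hV.sequentialSpace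
  obtain ⟨W, hW, hpW, hFW⟩ := hF.exists_open
  let G : Set X := E \ ⋃ i, W i
  have hG : IsClosed G := hE.sdiff (isOpen_iUnion hW)
  have hpG : p ∈ G := ⟨hFE hpF, fun h => by
    obtain ⟨i, hi⟩ := mem_iUnion.1 h
    exact hpW i (subset_closure hi)⟩
  have hGF : G \ {p} ⊆ E \ F := fun x hx => ⟨hx.1.1, fun hxF => hx.1.2 (hFW ⟨hxF, hx.2⟩)⟩
  -- the members of the weak base at `p` are neighbourhoods of `p` in `G`
  have hnhds : ∀ n, ∃ O, IsOpen O ∧ p ∈ O ∧ O ∩ G ⊆ V p n := by
    intro n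
    by_contra hcon
    push Not at hcon
    have hpcl : p ∈ closure (G \ V p n) := by
      rw [mem_closure_iff]
      intro O hO hpO
      obtain ⟨x, hx1, hx2⟩ := Set.not_subset.1 (hcon O hO hpO)
      exact ⟨x, hx1.1, hx1.2, hx2⟩
    obtain ⟨A, hAG, hAc, hpA⟩ := countable_tight hpcl
    have hpA' : p ∉ A := fun h => (hAG h).2 (hV.2.1 p n)
    have hAsub : A ⊆ E \ F := fun a ha => hGF ⟨(hAG ha).1, fun h => hpA' (by
      rw [mem_singleton_iff] at h; rwa [h] at ha)⟩
    have hclG : closure A ⊆ G := closure_minimal (fun a ha => (hAG ha).1) hG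
    obtain ⟨a, haA, ha⟩ := hFr A hAsub hAc hpA (by
      rintro x ⟨hxA, hxF⟩
      by_contra hxp
      exact (hGF ⟨hclG hxA, hxp⟩).2 hxF)
    obtain ⟨k, hk⟩ := (hV.eventually_mem ha n).exists
    exact (hAG (haA k)).2 hk
  choose O hO hpO hOG using hnhds
  -- cover
  have hcov1 : Shell p (G) := by
    refine ⟨fun n => G \ O n, fun n => hG.sdiff (hO n), fun n h => h.2 (hpO n), ?_⟩
    rintro x ⟨hxG, hxp⟩
    obtain ⟨n, hn⟩ := hV.exists_sub (isOpen_compl_singleton (x := x)) (x := p)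
      (fun h => hxp (by rw [mem_singleton_iff] at h ⊢; exact h.symm))
    refine mem_iUnion.2 ⟨n, hxG, fun hxO => ?_⟩
    exact hn (hOG n ⟨hxO, hxG⟩) rfl
  have hcov2 : ∀ i, Shell p (closure (W i)) := fun i =>
    ⟨fun _ => closure (W i), fun _ => isClosed_closure, fun _ => hpW i, fun x hx =>
      mem_iUnion.2 ⟨0, hx.1⟩⟩
  refine Shell.iUnion (E' := fun j => Nat.casesOn j G fun i => closure (W i)) ?_ ?_
  · rintro (_ | i)
    · exact hcov1
    · exact hcov2 i
  · intro x hx
    by_cases hxW : x ∈ ⋃ i, W i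
    · obtain ⟨i, hi⟩ := mem_iUnion.1 hxW
      exact mem_iUnion.2 ⟨i + 1, subset_closure hi⟩
    · exact mem_iUnion.2 ⟨0, hx, hxW⟩

/-- the step, with property wD -/
theorem Shell.step {X : Type*} [TopologicalSpace X] [T2Space X] [CompactSpace X]
    {V : X → ℕ → Set X} (hV : IsWeakBase V) {p : X} {F E : Set X} (hF : Shell p F) (hpF : p ∈ F)
    (hFE : F ⊆ E) (hE : IsClosed E) (hWD : SepWD ↥(E \ F)) : Shell p E := by
  have hseq : SequentialSpace X := hV.sequentialSpace
  refine hF.stepFrechet hV hpF hFE hE ?_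
  intro A hAsub hAc hpA hAF
  have hpA' : p ∉ A := fun h => (hAsub h).2 hpF
  obtain ⟨u, hu1, hu2, hu3⟩ := exists_seq_closure hpA hpA'
  have hclE : closure A ⊆ E := closure_minimal (fun a ha => (hAsub ha).1) hE
  let A0 : Set ↥(E \ F) := Subtype.val ⁻¹' A
  have hA0c : A0.Countable := hAc.preimage Subtype.val_injective
  let ι : ↥(closure A0) → X := fun y => (y : ↥(E \ F))
  have hι : IsEmbedding ι := IsEmbedding.subtypeVal.comp IsEmbedding.subtypeVal
  have hA0 : Subtype.val '' A0 = A := by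
    rw [Subtype.image_preimage_coe]
    exact inter_eq_right.2 hAsub
  have hrange : ∀ x, x ∈ closure A → x ∈ E \ F → x ∈ range ι := by
    intro x hx hxEF
    have h1 : (⟨x, hxEF⟩ : ↥(E \ F)) ∈ closure A0 := by
      rw [IsEmbedding.subtypeVal.closure_eq_preimage_closure_image, mem_preimage, hA0]
      exact hx
    exact ⟨⟨⟨x, hxEF⟩, h1⟩, rfl⟩
  exact core hι (hWD A0 hA0c) (p := p) (A := A)
    (by rintro ⟨y, hy⟩
        have := y.1.2.2
        apply this
        have h : ((y : ↥(E \ F)) : X) = p := hy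
        rw [h]
        exact hpF)
    (fun a ha => hrange a (subset_closure ha) (hAsub ha))
    (by
      intro x hx
      by_cases hxp : x = p
      · exact Or.inl hxp
      · exact Or.inr (hrange x hx ⟨hclE hx, fun hxF => hxp (hAF ⟨hx, hxF⟩)⟩))
    hu1 hu2 hu3

/-- in a compact Hausdorff space, a point that is the intersection of countably many open sets
has a countable neighbourhood base -/
theorem isCountablyGenerated_of_shell {X : Type*} [TopologicalSpace X] [T2Space X]
    [CompactSpace X] {p : X} (h : Shell p (univ : Set X)) : (𝓝 p).IsCountablyGenerated := by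
  obtain ⟨K, hK, hpK, hE⟩ := h
  have h1 : ∀ i, ∃ C ∈ 𝓝 p, IsClosed C ∧ C ⊆ (K i)ᶜ := fun i => by
    obtain ⟨C, hC, hCc, hCK⟩ := exists_mem_nhds_isClosed_subset ((hK i).isOpen_compl.mem_nhds (hpK i))
    exact ⟨C, hC, hCc, hCK⟩
  choose C hC hCc hCK using h1
  let B : ℕ → Set X := fun n => ⋂ i ∈ Iic n, C i
  have hBanti : Antitone B := fun m n hmn => biInter_subset_biInter_left (Iic_subset_Iic.2 hmn)
  have hBn : ∀ n, B n ∈ 𝓝 p := fun n => (biInter_mem (finite_Iic n)).2 fun i _ => hC i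
  have hBc : ∀ n, IsClosed (B n) := fun n => isClosed_biInter fun i _ => hCc i
  have hbasis : (𝓝 p).HasBasis (fun _ : ℕ => True) B := by
    refine ⟨fun t => ⟨fun ht => ?_, fun ⟨n, _, hn⟩ => mem_of_superset (hBn n) hn⟩⟩
    obtain ⟨n, hn⟩ := exists_subset_nhds_of_isCompact' (V := B) (U := t)
      (directed_of_isDirected_le hBanti) (fun n => (hBc n).isCompact) hBc (by
        intro x hx
        have hxp : x = p := by
          by_contra hxp
          obtain ⟨i, hi⟩ := mem_iUnion.1 (hE ⟨mem_univ x, hxp⟩)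
          have h2 : x ∈ B i := mem_iInter.1 hx i
          exact hCK i (mem_iInter₂.1 h2 i (mem_Iic.2 le_rfl)) hi
        rw [hxp]
        exact ht)
    exact ⟨n, trivial, hn⟩
  exact hbasis.isCountablyGenerated

theorem shell_univ_of_shell {X : Type*} [TopologicalSpace X] [T2Space X] [CompactSpace X]
    {V : X → ℕ → Set X} (hV : IsWeakBase V) {p : X} {n : ℕ} {E : Set X} (hE : Shell p E)
    (hVE : V p n ⊆ E) : Shell p (univ : Set X) := by
  obtain ⟨W, hW, hpW, hEW⟩ := hE.exists_open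
  let Q : Set X := insert p (⋃ i, W i)
  have hQ : IsOpen Q := by
    rw [hV.2.2]
    rintro x (hx | hx)
    · subst hx
      refine ⟨n, fun y hy => ?_⟩
      by_cases hyx : y = x
      · exact Or.inl hyx
      · exact Or.inr (hEW ⟨hVE hy, hyx⟩)
    · obtain ⟨m, hm⟩ := hV.exists_sub (isOpen_iUnion hW) hx
      exact ⟨m, hm.trans (subset_insert _ _)⟩
  refine ⟨fun j => Nat.casesOn j Qᶜ fun i => closure (W i), ?_, ?_, ?_⟩
  · rintro (_ | i)
    · exact hQ.isClosed_compl
    · exact isClosed_closure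
  · rintro (_ | i)
    · exact fun h => h (mem_insert _ _)
    · exact hpW i
  · rintro x ⟨_, hxp⟩
    by_cases hxQ : x ∈ Q
    · obtain ⟨i, hi⟩ := mem_iUnion.1 (hxQ.resolve_left hxp)
      exact mem_iUnion.2 ⟨i + 1, subset_closure hi⟩
    · exact mem_iUnion.2 ⟨0, hxQ⟩

end Helper9Wfc
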