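import Pool.Agent.Helper9Wfc.Core

set_option autoImplicit false

open Set Topology Filter

namespace Helper9Wfc

variable {X : Type*} [TopologicalSpace X] [T2Space X] [CompactSpace X] {V : X → ℕ → Set X}

/-- persistence, inside a closed set `G` -/
theorem shell_of_inter_subset (hV : IsWeakBase V) {p : X} {n : ℕ} {G E : Set X} (hG : IsClosed G)
    (hE : Shell p E) (hVE : V p n ∩ G ⊆ E) : Shell p G := by
  obtain ⟨W, hW, hpW, hEW⟩ := hE.exists_open
  let Q : Set X := insert p (⋃ i, W i) ∪ Gᶜ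
  have hQ : IsOpen Q := by
    rw [hV.2.2]
    rintro x ((hx | hx) | hx)
    · subst hx
      refine ⟨n, fun y hy => ?_⟩
      by_cases hyG : y ∈ G
      · left
        by_cases hyx : y = x
        · exact Or.inl hyx
        · exact Or.inr (hEW ⟨hVE ⟨hy, hyG⟩, hyx⟩)
      · exact Or.inr hyG
    · obtain ⟨m, hm⟩ := hV.exists_sub (isOpen_iUnion hW) hx
      exact ⟨m, hm.trans ((subset_insert _ _).trans subset_union_left)⟩
    · obtain ⟨m, hm⟩ := hV.exists_sub hG.isOpen_compl hx
      exact ⟨m, hm.trans subset_union_right⟩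
  refine ⟨fun j => Nat.casesOn j Qᶜ fun i => closure (W i), ?_, ?_, ?_⟩
  · rintro (_ | i)
    · exact hQ.isClosed_compl
    · exact isClosed_closure
  · rintro (_ | i)
    · exact fun h => h (Or.inl (mem_insert _ _))
    · exact hpW i
  · rintro x ⟨hxG, hxp⟩
    by_cases hxQ : x ∈ Q
    · rcases hxQ with (hx | hx) | hx
      · exact absurd hx hxp
      · obtain ⟨i, hi⟩ := mem_iUnion.1 hx
        exact mem_iUnion.2 ⟨i + 1, subset_closure hi⟩
      · exact absurd hxG hx
    · exact mem_iUnion.2 ⟨0, hxQ⟩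

omit [CompactSpace X] in
theorem exists_notMem_closure (hV : IsWeakBase V) {p q : X} (h : q ≠ p) :
    ∃ n, q ∉ closure (V p n) := by
  obtain ⟨W, O, hW, hO, hqW, hpO, hdis⟩ := t2_separation h
  obtain ⟨n, hn⟩ := hV.exists_sub hO hpO
  refine ⟨n, fun hq => ?_⟩
  obtain ⟨z, hzW, hzV⟩ := mem_closure_iff.1 hq W hW hqW
  exact hdis.le_bot ⟨hzW, hn hzV⟩

omit [CompactSpace X] in
theorem shell_closure (hV : IsWeakBase V) {p : X} {Q : Set X}
    (h : ∀ n, p ∉ closure (Q \ V p n)) : Shell p (closure Q) := by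
  refine ⟨fun n => closure Q \ (closure (Q \ V p n))ᶜ, fun n => ?_, fun n hp => hp.2 (h n), ?_⟩
  · exact isClosed_closure.sdiff isClosed_closure.isOpen_compl
  · rintro q ⟨hq, hqp⟩
    obtain ⟨n, hn⟩ := exists_notMem_closure hV hqp
    refine mem_iUnion.2 ⟨n, hq, fun hqO => ?_⟩
    apply hn
    rw [mem_closure_iff] at hq ⊢
    intro O hO hqO'
    obtain ⟨z, ⟨hzO, hz⟩, hzQ⟩ := hq (O ∩ (closure (Q \ V p n))ᶜ)
      (hO.inter isClosed_closure.isOpen_compl) ⟨hqO', hqO⟩
    refine ⟨z, hzO, ?_⟩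
    by_contra hzV
    exact hz (subset_closure ⟨hzQ, hzV⟩)

/-- in a closed set `G` with `Shell p G`, sequences reach `p` -/
theorem Shell.exists_seq {p : X} {G A : Set X} (hG : IsClosed G) (h : Shell p G) (hA : A ⊆ G)
    (hp : p ∈ closure A) : ∃ a : ℕ → X, (∀ k, a k ∈ A) ∧ Tendsto a atTop (𝓝 p) := by
  have hpG : p ∈ G := closure_minimal hA hG hp
  have hGc : CompactSpace G := isCompact_iff_compactSpace.1 hG.isCompact
  obtain ⟨K, hK, hpK, hE⟩ := h
  have h1 : Shell (⟨p, hpG⟩ : G) univ := by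
    refine ⟨fun i => Subtype.val ⁻¹' K i, fun i => (hK i).preimage continuous_subtype_val,
      fun i => hpK i, ?_⟩
    rintro ⟨x, hx⟩ ⟨-, hxp⟩
    obtain ⟨i, hi⟩ := mem_iUnion.1 (hE ⟨hx, fun h => hxp (Subtype.ext h)⟩)
    exact mem_iUnion.2 ⟨i, hi⟩
  have h2 := isCountablyGenerated_of_shell h1
  have h3 : (𝓝[G] p).IsCountablyGenerated := by
    rw [nhdsWithin_eq_map_subtype_coe hpG]
    infer_instance
  have h4 : 𝓝[A] p = 𝓝[G] p ⊓ 𝓟 A := by
    rw [nhdsWithin, nhdsWithin, inf_assoc, inf_principal, inter_eq_right.2 hA]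
  have h5 : (𝓝[A] p).IsCountablyGenerated := by
    rw [h4]
    infer_instance
  have h6 : (𝓝[A] p).NeBot := mem_closure_iff_nhdsWithin_neBot.1 hp
  obtain ⟨a, ha⟩ := exists_seq_tendsto (𝓝[A] p)
  rw [tendsto_nhdsWithin_iff] at ha
  obtain ⟨N, hN⟩ := eventually_atTop.1 ha.2
  exact ⟨fun k => a (k + N), fun k => hN _ (Nat.le_add_left _ _),
    ha.1.comp (tendsto_add_atTop_nat N)⟩

/-- the expansion lemma -/
theorem exists_seq_of_sepWD {p : X} {M A : Set X} (hM : SepWD M) (hpM : p ∉ M) (hAM : A ⊆ M)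
    (hAc : A.Countable) {x : ℕ → X} (hxM : ∀ k, x k ∈ M) (hxA : ∀ k, x k ∈ closure A)
    (hx : Tendsto x atTop (𝓝 p))
    (hL : ∀ L ⊆ closure A, L ∩ M = ∅ → p ∉ L → IsClosed (insert p L) → Shell p (insert p L)) :
    ∃ a : ℕ → X, (∀ k, a k ∈ A) ∧ Tendsto a atTop (𝓝 p) := by
  classical
  have hxp : ∀ k, x k ≠ p := fun k h => hpM (h ▸ hxM k)
  -- the subspace `M ∩ closure A`
  let A0 : Set M := Subtype.val ⁻¹' A
  have hA0c : A0.Countable := hAc.preimage Subtype.val_injective
  have hA0 : Subtype.val '' A0 = A := by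
    rw [Subtype.image_preimage_coe]
    exact inter_eq_right.2 hAM
  let ι : ↥(closure A0) → X := fun y => (y : M)
  have hι : IsEmbedding ι := IsEmbedding.subtypeVal.comp IsEmbedding.subtypeVal
  have hrange : ∀ z, z ∈ closure A → z ∈ M → z ∈ range ι := by
    intro z hz hzM
    have h1 : (⟨z, hzM⟩ : M) ∈ closure A0 := by
      rw [IsEmbedding.subtypeVal.closure_eq_preimage_closure_image, mem_preimage, hA0]
      exact hz
    exact ⟨⟨⟨z, hzM⟩, h1⟩, rfl⟩
  have hιM : ∀ y, ι y ∈ M := fun y => y.1.2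
  have : T2Space ↥(closure A0) := T2Space.of_injective_continuous hι.injective hι.continuous
  -- points other than `p` have neighbourhoods that meet `range x` in a finite set
  have hfin : ∀ z, z ≠ p → ∃ O, IsOpen O ∧ z ∈ O ∧ (O ∩ range x).Finite := by
    intro z hz
    obtain ⟨O, O', hO, hO', hzO, hpO', hdis⟩ := t2_separation hz
    refine ⟨O, hO, hzO, ?_⟩
    obtain ⟨N, hN⟩ := eventually_atTop.1 (hx.eventually (hO'.mem_nhds hpO'))
    refine ((finite_Iio N).image x).subset ?_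
    rintro _ ⟨h1, ⟨k, rfl⟩⟩
    refine ⟨k, ?_, rfl⟩
    by_contra hk
    exact hdis.le_bot ⟨h1, hN k (not_lt.1 hk)⟩
  have hιp : ∀ y, ι y ≠ p := fun y h => hpM (h ▸ hιM y)
  have hxι : range x ⊆ range ι := by
    rintro _ ⟨k, rfl⟩
    exact hrange _ (hxA k) (hxM k)
  let D : Set ↥(closure A0) := ι ⁻¹' range x
  have hDinf : D.Infinite := by
    intro hD
    have h1 : (range x).Finite := by
      rw [← image_preimage_eq_of_subset hxι]
      exact hD.image ι
    have h2 : p ∈ range x :=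
      h1.isClosed.mem_of_tendsto hx (Eventually.of_forall fun k => mem_range_self k)
    obtain ⟨k, hk⟩ := h2
    exact hxp k hk
  have hDcl : IsClosed D := by
    have h1 : D = ι ⁻¹' (insert p (range x)) := by
      ext y
      simp only [D, mem_preimage, mem_insert_iff]
      constructor
      · exact fun h => Or.inr h
      · rintro (h | h)
        · exact absurd h (hιp y)
        · exact h
    rw [h1]
    exact hx.isCompact_insert_range.isClosed.preimage hι.continuous
  have hDdis : DiscreteTopology D := by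
    rw [discreteTopology_iff_isOpen_singleton]
    rintro ⟨d, hd⟩
    obtain ⟨O, hO, hdO, hOfin⟩ := hfin (ι d) (hιp d)
    have h1 : (ι ⁻¹' O ∩ D).Finite := by
      have : (ι ⁻¹' (O ∩ range x)).Finite := hOfin.preimage hι.injective.injOn
      exact this
    have h2 : IsClosed ((ι ⁻¹' O ∩ D) \ {d}) := (h1.subset Set.sdiff_subset).isClosed
    have h3 : ({⟨d, hd⟩} : Set D) =
        Subtype.val ⁻¹' (ι ⁻¹' O \ ((ι ⁻¹' O ∩ D) \ {d})) := by
      ext ⟨y, hy⟩
      simp only [mem_singleton_iff, Subtype.mk.injEq, mem_preimage, Set.mem_sdiff, mem_inter_iff,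
        not_and, not_not]
      constructor
      · rintro rfl
        exact ⟨hdO, fun _ => rfl⟩
      · rintro ⟨h4, h5⟩
        exact h5 ⟨h4, hy⟩
    rw [h3]
    exact ((hO.preimage hι.continuous).sdiff h2).preimage continuous_subtype_val
  obtain ⟨D', hD', hD'inf, U, hU, hlf⟩ := hM A0 hA0c D hDinf hDcl hDdis
  let e : ℕ ↪ D' := hD'inf.natEmbedding D'
  let d : ℕ → ↥(closure A0) := fun k => e k
  have hdinj : Function.Injective d := Subtype.val_injective.comp e.injective
  -- open sets of `X`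
  have hW : ∀ k, ∃ W, IsOpen W ∧ ι ⁻¹' W = U (d k) := fun k =>
    hι.isOpen_iff.1 (hU (d k) (e k).2).1
  choose W hWo hWU using hW
  have hdW : ∀ k, ι (d k) ∈ W k := fun k => by
    have h1 : d k ∈ ι ⁻¹' W k := by
      rw [hWU]
      exact (hU (d k) (e k).2).2
    exact h1
  have hdA : ∀ k, ι (d k) ∈ closure A := by
    intro k
    obtain ⟨l, hl⟩ := hD' (e k).2
    have h1 : ι (d k) = x l := hl.symm
    rw [h1]
    exact hxA l
  -- the `d k` converge to `p`
  have hdp : Tendsto (fun k => ι (d k)) atTop (𝓝 p) := by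
    apply tendsto_nhds_of_unique_mapClusterPt
    intro z hz
    by_contra hzp
    obtain ⟨O, hO, hzO, hOfin⟩ := hfin z hzp
    have hfr := mapClusterPt_iff_frequently.1 hz O (hO.mem_nhds hzO)
    have hinf : {k | ι (d k) ∈ O}.Infinite := Nat.frequently_atTop_iff_infinite.1 hfr
    have hsub : {k | ι (d k) ∈ O} ⊆ (ι ∘ d) ⁻¹' (O ∩ range x) := by
      intro k hk
      exact ⟨hk, hD' (e k).2⟩
    exact hinf ((hOfin.preimage (hι.injective.comp hdinj).injOn).subset hsub)
  -- the bad set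
  let L : Set X := {y | y ∈ closure A ∧ y ≠ p ∧
    ∀ N ∈ 𝓝 y, {k | (N ∩ W k ∩ closure A).Nonempty}.Infinite}
  have hLA : L ⊆ closure A := fun y hy => hy.1
  have hpL : p ∉ L := fun h => h.2.1 rfl
  have hLM : L ∩ M = ∅ := by
    rw [eq_empty_iff_forall_notMem]
    rintro y ⟨⟨hyA, hyp, hyN⟩, hyM⟩
    obtain ⟨y0, rfl⟩ := hrange y hyA hyM
    obtain ⟨t, ht, htf⟩ := hlf y0
    rw [hι.nhds_eq_comap, mem_comap] at ht
    obtain ⟨N, hN, hNt⟩ := ht
    obtain ⟨N', hN'N, hN'o, hyN'⟩ := mem_nhds_iff.1 hN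
    have hinf := hyN N' (hN'o.mem_nhds hyN')
    have hsub : {k | (N' ∩ W k ∩ closure A).Nonempty} ⊆ e ⁻¹' {c : D' | (U c ∩ t).Nonempty} := by
      rintro k ⟨z, ⟨hzN, hzW⟩, hzA⟩
      obtain ⟨a, ⟨haN, haW⟩, haA⟩ := mem_closure_iff.1 hzA (N' ∩ W k) (hN'o.inter (hWo k))
        ⟨hzN, hzW⟩
      obtain ⟨b, rfl⟩ := hrange a (subset_closure haA) (hAM haA)
      have h1 : b ∈ ι ⁻¹' W k := haW
      rw [hWU] at h1
      exact ⟨b, h1, hNt (hN'N haN)⟩
    exact hinf ((htf.preimage e.injective.injOn).subset hsub)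
  have hLcl : IsClosed (insert p L) := by
    rw [← isOpen_compl_iff, isOpen_iff_mem_nhds]
    intro y hy
    have hyp : y ≠ p := fun h => hy (Or.inl h)
    have hyL : y ∉ L := fun h => hy (Or.inr h)
    have hpy : {p}ᶜ ∈ 𝓝 y := isOpen_compl_singleton.mem_nhds hyp
    by_cases hyA : y ∈ closure A
    · have h1 : ∃ N ∈ 𝓝 y, ¬ {k | (N ∩ W k ∩ closure A).Nonempty}.Infinite := by
        by_contra hcon
        push Not at hcon
        exact hyL ⟨hyA, hyp, hcon⟩
      obtain ⟨N, hN, hNf⟩ := h1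
      rw [← interior_mem_nhds] at hN
      filter_upwards [hN, hpy] with z hz hzp
      rintro (h | h)
      · exact hzp h
      · exact hNf (h.2.2 N (mem_interior_iff_mem_nhds.1 hz))
    · filter_upwards [isClosed_closure.isOpen_compl.mem_nhds hyA, hpy] with z hz hzp
      rintro (h | h)
      · exact hzp h
      · exact hz h.1
  obtain ⟨O, hOo, hpO, hLO⟩ := (hL L hLA hLM hpL hLcl).exists_open
  -- shrink the open sets
  let W' : ℕ → Set X := fun k =>
    W k \ ⋃ i ∈ {i | i ≤ k ∧ ι (d k) ∉ closure (O i)}, closure (O i)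
  have hW'o : ∀ k, IsOpen (W' k) := by
    intro k
    refine (hWo k).sdiff (Set.Finite.isClosed_biUnion ?_ fun i _ => isClosed_closure)
    exact (finite_Iic k).subset fun i hi => hi.1
  have hdW' : ∀ k, ι (d k) ∈ W' k := by
    intro k
    refine ⟨hdW k, fun h => ?_⟩
    obtain ⟨i, hi, h2⟩ := mem_iUnion₂.1 h
    exact hi.2 h2
  have hch : ∀ k, ∃ a, a ∈ A ∧ a ∈ W' k := by
    intro k
    obtain ⟨a, h1, h2⟩ := mem_closure_iff.1 (hdA k) (W' k) (hW'o k) (hdW' k)
    exact ⟨a, h2, h1⟩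
  choose a haA haW using hch
  refine ⟨a, haA, ?_⟩
  apply tendsto_nhds_of_unique_mapClusterPt
  intro z hz
  by_contra hzp
  have hzA : z ∈ closure A := by
    rw [mem_closure_iff_nhds]
    intro t ht
    obtain ⟨k, hk⟩ := (mapClusterPt_iff_frequently.1 hz t ht).exists
    exact ⟨_, hk, haA _⟩
  by_cases hzL : z ∈ L
  · obtain ⟨i, hi⟩ := mem_iUnion.1 (hLO ⟨Or.inr hzL, hzp⟩)
    have hfr := mapClusterPt_iff_frequently.1 hz (O i) ((hOo i).mem_nhds hi)
    have hev : ∀ᶠ k in atTop, ι (d k) ∉ closure (O i) :=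
      hdp.eventually (isClosed_closure.isOpen_compl.mem_nhds (hpO i))
    obtain ⟨k, hk1, hk2, hk3⟩ := (hfr.and_eventually (hev.and (eventually_ge_atTop i))).exists
    apply (haW k).2
    exact mem_iUnion₂.2 ⟨i, ⟨hk3, hk2⟩, subset_closure hk1⟩
  · have h1 : ∃ N ∈ 𝓝 z, ¬ {k | (N ∩ W k ∩ closure A).Nonempty}.Infinite := by
      by_contra hcon
      push Not at hcon
      exact hzL ⟨hzA, hzp, hcon⟩
    obtain ⟨N, hN, hNf⟩ := h1
    have hfr := mapClusterPt_iff_frequently.1 hz N hN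
    have hinf : {k | a k ∈ N}.Infinite := Nat.frequently_atTop_iff_infinite.1 hfr
    exact hNf (hinf.mono fun k hk => ⟨a k, ⟨hk, (haW k).1⟩, subset_closure (haA k)⟩)

/-- `M` misses `p`, and either the closures in `M` of the countable subsets of `M` have property wD,
or every countable subset of `M` with `p` in its closure contains a sequence that converges to
`p`. -/
def Tame {X : Type*} [TopologicalSpace X] (p : X) (M : Set X) : Prop :=
  p ∉ M ∧ (SepWD M ∨ ∀ A ⊆ M, A.Countable → p ∈ closure A →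
    ∃ a : ℕ → X, (∀ k, a k ∈ A) ∧ Tendsto a atTop (𝓝 p))

/-- **The finite union theorem.** If the trace on the closed set `G` of some member of the weak
base at `p` is covered, outside `p`, by finitely many tame sets `M`, then `G \ {p}` is covered by
countably many closed sets that miss `p`. -/
theorem shell_of_finite_union (hV : IsWeakBase V) {p : X} (J : Finset (Set X))
    (hJ : ∀ M ∈ J, Tame p M) :
    ∀ G : Set X, IsClosed G → (∃ m, (V p m ∩ G) \ {p} ⊆ ⋃ M ∈ J, M) → Shell p G := by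
  classical
  have hseq : SequentialSpace X := hV.sequentialSpace
  induction J using Finset.strongInduction with
  | H J ih =>
    rintro G hG ⟨m, hm⟩
    by_contra hns
    have h1 : ¬ Shell p (closure (V p m ∩ G)) := fun h =>
      hns (shell_of_inter_subset hV hG h subset_closure)
    have h2 : ∃ n, p ∈ closure ((V p m ∩ G) \ V p n) := by
      by_contra hcon
      push Not at hcon
      exact h1 (shell_closure hV hcon)
    obtain ⟨n, hn⟩ := h2
    obtain ⟨A, hAsub, hAc, hpA⟩ := countable_tight hn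
    have hAV : ∀ a ∈ A, a ∉ V p n := fun a ha => (hAsub ha).2
    have hpA' : p ∉ A := fun h => hAV p h (hV.2.1 p n)
    have hAJ : A ⊆ ⋃ M ∈ J, A ∩ M := by
      intro a ha
      obtain ⟨M, hM, haM⟩ := mem_iUnion₂.1
        (hm ⟨(hAsub ha).1, fun h => hpA' (by rw [mem_singleton_iff] at h; rwa [h] at ha)⟩)
      exact mem_iUnion₂.2 ⟨M, hM, ha, haM⟩
    have h3 : p ∈ closure (⋃ M ∈ J, A ∩ M) := closure_mono hAJ hpA
    have h4 : p ∈ ⋃ M ∈ J, closure (A ∩ M) := by
      rwa [Finset.closure_biUnion] at h3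
    obtain ⟨M, hMJ, hpM⟩ := mem_iUnion₂.1 h4
    have hAMc : (A ∩ M).Countable := hAc.mono inter_subset_left
    have hG' : closure (A ∩ M) ⊆ G :=
      closure_minimal (fun a ha => (hAsub ha.1).1.2) hG
    have hno : ∀ a : ℕ → X, (∀ k, a k ∈ A ∩ M) → ¬ Tendsto a atTop (𝓝 p) := by
      intro a ha hap
      obtain ⟨k, hk⟩ := (hV.eventually_mem hap n).exists
      exact hAV _ (ha k).1 hk
    have hMwd : SepWD M := by
      rcases (hJ M hMJ).2 with h | h
      · exact h
      · obtain ⟨a, ha, hap⟩ := h _ inter_subset_right hAMc hpM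
        exact absurd hap (hno a ha)
    have ihM := ih (J.erase M) (Finset.erase_ssubset hMJ)
      (fun M' hM' => hJ M' (Finset.mem_of_mem_erase hM'))
    -- no sequence in `M ∩ closure (A ∩ M)` converges to `p`
    have hclaim : ∃ m', V p m' ∩ closure (A ∩ M) ∩ M = ∅ := by
      by_contra hcon
      push Not at hcon
      choose x hx using hcon
      have hxp : Tendsto x atTop (𝓝 p) := hV.tendsto fun k => (hx k).1.1
      obtain ⟨a, ha, hap⟩ := exists_seq_of_sepWD hMwd (hJ M hMJ).1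
        inter_subset_right hAMc (fun k => (hx k).2) (fun k => (hx k).1.2) hxp (by
          intro L hLA hLM hpL hLcl
          refine ihM _ hLcl ⟨m, ?_⟩
          rintro y ⟨⟨hyV, hy | hy⟩, hyp⟩
          · exact absurd hy hyp
          · obtain ⟨M', hM', hyM'⟩ := mem_iUnion₂.1 (hm ⟨⟨hyV, hG' (hLA hy)⟩, hyp⟩)
            refine mem_iUnion₂.2 ⟨M', Finset.mem_erase.2 ⟨?_, hM'⟩, hyM'⟩
            rintro rfl
            exact (eq_empty_iff_forall_notMem.1 hLM y) ⟨hy, hyM'⟩)
      exact hno a ha hap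
    obtain ⟨m', hm'⟩ := hclaim
    have h5 : Shell p (closure (A ∩ M)) := by
      refine ihM _ isClosed_closure ⟨max m m', ?_⟩
      rintro y ⟨⟨hyV, hyc⟩, hyp⟩
      obtain ⟨M', hM', hyM'⟩ := mem_iUnion₂.1
        (hm ⟨⟨hV.anti p (le_max_left m m') hyV, hG' hyc⟩, hyp⟩)
      refine mem_iUnion₂.2 ⟨M', Finset.mem_erase.2 ⟨?_, hM'⟩, hyM'⟩
      rintro rfl
      exact (eq_empty_iff_forall_notMem.1 hm' y)
        ⟨⟨hV.anti p (le_max_right m m') hyV, hyc⟩, hyM'⟩
    obtain ⟨a, ha, hap⟩ := h5.exists_seq isClosed_closure subset_closure hpM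
    exact hno a ha hap

/-- compact spaces have property wD for a trivial reason: they have no infinite closed discrete
subset -/
theorem wd_of_compact {Y : Type*} [TopologicalSpace Y] [CompactSpace Y] : WD Y := by
  intro D hD hDc hDd
  exact absurd (hDc.isCompact.finite (by exact ⟨hDd⟩)) hD

/-- discrete spaces have property wD -/
theorem wd_of_discrete {Y : Type*} [TopologicalSpace Y] [DiscreteTopology Y] : WD Y := by
  intro D hD _ _
  refine ⟨D, subset_rfl, hD, fun d => {d}, fun d _ => ⟨isOpen_discrete _, rfl⟩, ?_⟩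
  intro y
  refine ⟨{y}, (isOpen_discrete _).mem_nhds rfl, ?_⟩
  refine Set.Subsingleton.finite ?_
  rintro ⟨d, hd⟩ ⟨z, hz1, hz2⟩ ⟨e, he⟩ ⟨w, hw1, hw2⟩
  simp only [mem_singleton_iff] at hz1 hz2 hw1 hw2
  subst hz1 hz2 hw1
  simp [hw2]

theorem sepWD_of_discrete {Y : Type*} [TopologicalSpace Y] [DiscreteTopology Y] : SepWD Y :=
  fun _ _ => wd_of_discrete

/-- `T1` normal spaces have property wD -/
theorem wd_of_normal {Y : Type*} [TopologicalSpace Y] [T1Space Y] [NormalSpace Y] : WD Y := by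
  intro D hD hDc hDd
  let e : ℕ ↪ D := hD.natEmbedding D
  let D' : Set Y := range fun k => (e k : Y)
  have hD' : D' ⊆ D := by
    rintro _ ⟨k, rfl⟩
    exact (e k).2
  have hinj : Function.Injective fun k => (e k : Y) :=
    Subtype.val_injective.comp e.injective
  have hD'inf : D'.Infinite := infinite_range_of_injective hinj
  have hD'd : DiscreteTopology D' := DiscreteTopology.of_subset hDd hD'
  have hD'c : IsClosed D' := by
    have h1 : IsClosed ((Subtype.val : D → Y) ⁻¹' D') := isClosed_discrete _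
    have h2 := hDc.isClosedEmbedding_subtypeVal.isClosedMap _ h1
    rwa [Subtype.image_preimage_coe, inter_eq_right.2 hD'] at h2
  let g : D' → ℝ := fun d => (Classical.choose d.2 : ℕ)
  have hg : ∀ k, g ⟨(e k : Y), ⟨k, rfl⟩⟩ = k := by
    intro k
    have h1 := Classical.choose_spec (⟨(e k : Y), ⟨k, rfl⟩⟩ : D').2
    have h2 := hinj h1
    simp only [g]
    exact_mod_cast h2
  obtain ⟨f, hf⟩ := ContinuousMap.exists_restrict_eq hD'c ⟨g, continuous_of_discreteTopology⟩
  have hfe : ∀ k, f (e k : Y) = k := by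
    intro k
    have h1 := DFunLike.congr_fun hf ⟨(e k : Y), ⟨k, rfl⟩⟩
    rw [ContinuousMap.restrict_apply] at h1
    exact h1.trans (hg k)
  refine ⟨D', hD', hD'inf, fun y => f ⁻¹' Metric.ball (f y) (1 / 3), ?_, ?_⟩
  · intro d _
    exact ⟨Metric.isOpen_ball.preimage f.continuous, Metric.mem_ball_self (by norm_num)⟩
  · intro y
    refine ⟨f ⁻¹' Metric.ball (f y) (1 / 6), (Metric.isOpen_ball.preimage f.continuous).mem_nhds
      (Metric.mem_ball_self (by norm_num)), ?_⟩
    refine Set.Subsingleton.finite ?_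
    rintro ⟨_, ⟨k, rfl⟩⟩ ⟨z, hz1, hz2⟩ ⟨_, ⟨l, rfl⟩⟩ ⟨w, hw1, hw2⟩
    simp only [mem_preimage, Metric.mem_ball, hfe, Real.dist_eq] at hz1 hz2 hw1 hw2
    have h1 : |(k : ℝ) - l| < 1 := by
      rw [abs_lt] at hz1 hz2 hw1 hw2 ⊢
      constructor <;> linarith [hz1.1, hz1.2, hz2.1, hz2.2, hw1.1, hw1.2, hw2.1, hw2.2]
    have h2 : (k : ℤ) = l := by
      have h3 : |((k : ℤ) - (l : ℤ) : ℤ)| < 1 := by exact_mod_cast h1
      have h4 := Int.abs_lt_one_iff.1 h3
      linarith
    have h3 : k = l := by exact_mod_cast h2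
    subst h3
    rfl

/-- hereditarily normal `T1` spaces have property wD on closures of countable sets -/
theorem sepWD_of_completelyNormal {Y : Type*} [TopologicalSpace Y] [T1Space Y]
    [CompletelyNormalSpace Y] : SepWD Y :=
  fun _ _ => wd_of_normal

/-- regular sigma-compact spaces have property wD on closures of countable sets -/
theorem sepWD_of_sigmaCompact {Y : Type*} [TopologicalSpace Y] [T3Space Y]
    [SigmaCompactSpace Y] : SepWD Y := by
  intro A _
  have : SigmaCompactSpace (closure A) :=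
    isClosed_closure.isClosedEmbedding_subtypeVal.sigmaCompactSpace
  exact wd_of_normal

end Helper9Wfc
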