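import Pool.Agent.Helper9Wfc.Basic

set_option autoImplicit false

open Set Filter Topology

namespace Helper9Wfc

/-- The product of two compact Hausdorff sequential spaces is sequential. -/
theorem sequentialSpace_prod {X Y : Type*} [TopologicalSpace X] [TopologicalSpace Y]
    [SequentialSpace X] [SequentialSpace Y] [CompactSpace Y] [T2Space Y] :
    SequentialSpace (X × Y) := by
  refine ⟨fun C hC => ?_⟩
  rw [← isOpen_compl_iff, isOpen_iff_mem_nhds]
  rintro ⟨x0, y0⟩ h0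
  have h1 : IsClosed {y | (x0, y) ∈ C} := by
    rw [← isSeqClosed_iff_isClosed]
    intro u y hu huy
    exact hC hu (tendsto_const_nhds.prodMk_nhds huy)
  have h2 : {y | (x0, y) ∈ C}ᶜ ∈ 𝓝 y0 := h1.isOpen_compl.mem_nhds h0
  obtain ⟨W, hW, hWc, hWs⟩ := exists_mem_nhds_isClosed_subset h2
  have h3 : IsClosed {x | ∃ y ∈ W, (x, y) ∈ C} := by
    rw [← isSeqClosed_iff_isClosed]
    intro u x hu hux
    choose v hvW hv using hu
    obtain ⟨y, φ, hφ, hy⟩ := SeqCompactSpace.tendsto_subseq v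
    refine ⟨y, hWc.mem_of_tendsto hy (Eventually.of_forall fun k => hvW (φ k)), ?_⟩
    exact hC (fun k => hv (φ k)) ((hux.comp hφ.tendsto_atTop).prodMk_nhds hy)
  have h4 : {x | ∃ y ∈ W, (x, y) ∈ C}ᶜ ∈ 𝓝 x0 := by
    refine h3.isOpen_compl.mem_nhds ?_
    rintro ⟨y, hyW, hy⟩
    exact hWs hyW hy
  filter_upwards [prod_mem_nhds h4 hW] with z hz hzC
  exact hz.1 ⟨z.2, hz.2, hzC⟩

end Helper9Wfc
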