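import Mathlib

set_option autoImplicit false

open Set Filter Topology MeasureTheory

namespace Helper9Wfc

/-- the first `k` terms of `b`, in reverse order -/
def pre (b : ℕ → ℕ) : ℕ → List ℕ
  | 0 => []
  | k + 1 => b k :: pre b k

@[simp] theorem pre_zero (b : ℕ → ℕ) : pre b 0 = [] := rfl

theorem pre_succ (b : ℕ → ℕ) (k : ℕ) : pre b (k + 1) = b k :: pre b k := rfl

@[simp] theorem pre_length (b : ℕ → ℕ) (k : ℕ) : (pre b k).length = k := by
  induction k with
  | zero => rfl
  | succ k ih => simp [pre_succ, ih]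

theorem pre_suffix (b : ℕ → ℕ) {j k : ℕ} (h : j ≤ k) : pre b j <:+ pre b k := by
  induction k, h using Nat.le_induction with
  | base => exact List.suffix_refl _
  | succ k _ ih => exact ih.trans (List.suffix_cons _ _)

theorem mem_pre (b : ℕ → ℕ) {j k : ℕ} (h : j < k) : b j ∈ pre b k :=
  (pre_suffix b h).subset (by simp [pre_succ])

theorem pre_eq_iff (b c : ℕ → ℕ) (k : ℕ) : pre b k = pre c k ↔ ∀ i < k, b i = c i := by
  induction k with
  | zero => simp
  | succ k ih =>
    rw [pre_succ, pre_succ, List.cons.injEq, ih]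
    constructor
    · rintro ⟨h1, h2⟩ i hi
      rcases Nat.lt_succ_iff_lt_or_eq.1 hi with h | rfl
      · exact h2 i h
      · exact h1
    · exact fun h => ⟨h k (Nat.lt_succ_self k), fun i hi => h i (hi.trans (Nat.lt_succ_self k))⟩

/-- `b` is a branch with stem `s` of the tree given by `R` -/
def Br (R : List ℕ → Set ℕ) (s : List ℕ) (b : ℕ → ℕ) : Prop :=
  pre b s.length = s ∧ ∀ k, s.length ≤ k → b k ∈ R (pre b k)

theorem Br.mono {R R' : List ℕ → Set ℕ} (h : ∀ t, R t ⊆ R' t) {s : List ℕ} {b : ℕ → ℕ}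
    (hb : Br R s b) : Br R' s b := ⟨hb.1, fun k hk => h _ (hb.2 k hk)⟩

theorem Br.cons {R : List ℕ → Set ℕ} {s : List ℕ} {b : ℕ → ℕ} (hb : Br R s b) :
    Br R (b s.length :: s) b := by
  refine ⟨?_, fun k hk => hb.2 k ?_⟩
  · rw [List.length_cons, pre_succ, hb.1]
  · rw [List.length_cons] at hk
    omega

theorem Br.tail {R : List ℕ → Set ℕ} {s : List ℕ} {b : ℕ → ℕ} (hb : Br R s b) {k : ℕ}
    (hk : s.length ≤ k) : Br R (pre b k) b := by
  refine ⟨by rw [pre_length], fun j hj => hb.2 j ?_⟩
  rw [pre_length] at hj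
  omega

/-- some tree with stem `s` whose nodes split into members of `U` has all branches in `S` -/
def Inside (U : Ultrafilter ℕ) (S : Set (ℕ → ℕ)) (s : List ℕ) : Prop :=
  ∃ R : List ℕ → Set ℕ, (∀ t, R t ∈ U) ∧ ∀ b, Br R s b → b ∈ S

variable {U : Ultrafilter ℕ}

theorem Inside.mono {S S' : Set (ℕ → ℕ)} (h : S ⊆ S') {s : List ℕ} (hs : Inside U S s) :
    Inside U S' s := by
  obtain ⟨R, hR, hb⟩ := hs
  exact ⟨R, hR, fun b h' => h (hb b h')⟩

theorem all_list_mem {α : Type*} (l : List α) (A : α → Set ℕ) (hA : ∀ x ∈ l, A x ∈ U) :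
    {m | ∀ x ∈ l, m ∈ A x} ∈ U := by
  have h1 : ∀ᶠ m in (U : Filter ℕ), ∀ x ∈ {x | x ∈ l}, m ∈ A x :=
    (eventually_all_finite (List.finite_toSet l)).2 fun x hx => hA x hx
  exact h1

theorem inside_of_step {S : Set (ℕ → ℕ)} {s : List ℕ} (h : {n | Inside U S (n :: s)} ∈ U) :
    Inside U S s := by
  classical
  let Q : ℕ → List ℕ → Set ℕ := fun n =>
    if h : Inside U S (n :: s) then h.choose else fun _ => univ
  have hQ : ∀ n t, Q n t ∈ U := by
    intro n t
    by_cases hn : Inside U S (n :: s)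
    · simp only [Q, dif_pos hn]
      exact hn.choose_spec.1 t
    · simp only [Q, dif_neg hn]
      exact univ_mem
  have hQ' : ∀ n, Inside U S (n :: s) → ∀ b, Br (Q n) (n :: s) b → b ∈ S := by
    intro n hn b hb
    simp only [Q, dif_pos hn] at hb
    exact hn.choose_spec.2 b hb
  refine ⟨fun t => (if t = s then {n | Inside U S (n :: s)} else univ) ∩
    {m | ∀ n ∈ t, m ∈ Q n t}, fun t => ?_, fun b hb => ?_⟩
  · refine inter_mem ?_ (all_list_mem t (fun n => Q n t) fun n _ => hQ n t)
    by_cases ht : t = s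
    · simp only [if_pos ht]
      exact h
    · simp only [if_neg ht]
      exact univ_mem
  · have h1 := (hb.2 s.length le_rfl).1
    rw [hb.1, if_pos rfl] at h1
    apply hQ' _ h1
    have h2 := hb.cons
    refine ⟨h2.1, fun k hk => (h2.2 k hk).2 _ ?_⟩
    apply mem_pre
    rw [List.length_cons] at hk
    omega

/-- almost surely the set of nodes `W` is hit -/
inductive Hit (U : Ultrafilter ℕ) (W : Set (List ℕ)) : List ℕ → Prop
  | base (s : List ℕ) : s ∈ W → Hit U W s
  | step (s : List ℕ) (A : Set ℕ) : A ∈ U → (∀ n ∈ A, Hit U W (n :: s)) → Hit U W s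

theorem Hit.inside {W : Set (List ℕ)} {S : Set (ℕ → ℕ)} (hW : ∀ t ∈ W, Inside U S t)
    {s : List ℕ} (h : Hit U W s) : Inside U S s := by
  induction h with
  | base s hs => exact hW s hs
  | step s A hA _ ih => exact inside_of_step (mem_of_superset hA ih)

theorem Hit.hits {W : Set (List ℕ)} {s : List ℕ} (h : Hit U W s) :
    Inside U {b | ∃ k, s.length ≤ k ∧ pre b k ∈ W} s := by
  induction h with
  | base s hs =>
    exact ⟨fun _ => univ, fun _ => univ_mem, fun b hb => ⟨s.length, le_rfl, by rw [hb.1]; exact hs⟩⟩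
  | step s A hA _ ih =>
    refine inside_of_step (mem_of_superset hA fun n hn => (ih n hn).mono ?_)
    rintro b ⟨k, hk, hkW⟩
    exact ⟨k, by rw [List.length_cons] at hk; omega, hkW⟩

theorem not_hit {W : Set (List ℕ)} {s : List ℕ} (h : ¬ Hit U W s) :
    ∃ R : List ℕ → Set ℕ, (∀ t, R t ∈ U) ∧ ∀ b, Br R s b → ∀ k, s.length ≤ k →
      ¬ Hit U W (pre b k) := by
  refine ⟨fun t => {n | Hit U W (n :: t) → Hit U W t}, fun t => ?_, fun b hb k hk => ?_⟩
  · by_cases ht : Hit U W t
    · exact mem_of_superset univ_mem fun n _ _ => ht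
    · have h1 : {n | Hit U W (n :: t)} ∉ U := fun h2 => ht (Hit.step t _ h2 fun n hn => hn)
      have h2 := Ultrafilter.compl_mem_iff_notMem.2 h1
      exact mem_of_superset h2 fun n hn h3 => absurd h3 hn
  · induction k, hk using Nat.le_induction with
    | base => rw [hb.1]; exact h
    | succ k hk ih =>
      rw [pre_succ]
      exact fun h2 => ih (hb.2 k hk h2)

theorem fusion {ι : Type*} [Countable ι] {S : ι → Set (ℕ → ℕ)} {s : List ℕ}
    (h : ¬ Hit U {t | ∃ i, ¬ Inside U (S i)ᶜ t} s) : Inside U (⋃ i, S i)ᶜ s := by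
  classical
  obtain ⟨e, he⟩ := exists_injective_nat ι
  obtain ⟨R0, hR0, hb0⟩ := not_hit h
  let Q : List ℕ → ι → List ℕ → Set ℕ := fun t i =>
    if h : Inside U (S i)ᶜ t then h.choose else fun _ => univ
  have hQ : ∀ t i u, Q t i u ∈ U := by
    intro t i u
    by_cases hn : Inside U (S i)ᶜ t
    · simp only [Q, dif_pos hn]
      exact hn.choose_spec.1 u
    · simp only [Q, dif_neg hn]
      exact univ_mem
  have hQ' : ∀ t i, Inside U (S i)ᶜ t → ∀ b, Br (Q t i) t b → b ∈ (S i)ᶜ := by
    intro t i hn b hb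
    simp only [Q, dif_pos hn] at hb
    exact hn.choose_spec.2 b hb
  -- the finitely many indices below `j`
  let I : ℕ → Set ι := fun j => {i | e i ≤ j}
  have hI : ∀ j, (I j).Finite := fun j =>
    Set.Finite.preimage he.injOn (finite_Iic j)
  refine ⟨fun u => R0 u ∩ {m | ∀ t ∈ u.tails, ∀ i ∈ I t.length, m ∈ Q t i u}, fun u => ?_,
    fun b hb => ?_⟩
  · refine inter_mem (hR0 u) ?_
    have := all_list_mem (U := U) u.tails (fun t => {m | ∀ i ∈ I t.length, m ∈ Q t i u})
      (fun t _ => (eventually_all_finite (hI t.length)).2 fun i _ => hQ t i u)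
    exact this
  · have hbR0 : Br R0 s b := hb.mono fun t => inter_subset_left
    rw [compl_iUnion, mem_iInter]
    intro i
    have hj := hb0 b hbR0 (max s.length (e i)) (le_max_left _ _)
    have hins : Inside U (S i)ᶜ (pre b (max s.length (e i))) := by
      by_contra hcon
      exact hj (Hit.base _ ⟨i, hcon⟩)
    apply hQ' _ i hins
    refine ⟨by rw [pre_length], fun k hk => ?_⟩
    rw [pre_length] at hk
    refine (hb.2 k ((le_max_left _ _).trans hk)).2 _ ?_ i ?_
    · rw [List.mem_tails]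
      exact pre_suffix b hk
    · simp only [I, mem_ofPred_eq, pre_length]
      exact le_max_right _ _

/-- `S` is decided by `U`-trees with any stem -/
def URam (U : Ultrafilter ℕ) (S : Set (ℕ → ℕ)) : Prop :=
  ∀ s, Inside U S s ∨ Inside U Sᶜ s

theorem URam.compl {S : Set (ℕ → ℕ)} (h : URam U S) : URam U Sᶜ := by
  intro s
  rw [compl_compl]
  exact (h s).symm

theorem URam.iUnion {S : ℕ → Set (ℕ → ℕ)} (h : ∀ i, URam U (S i)) : URam U (⋃ i, S i) := by
  intro s
  by_cases hs : Hit U {t | ∃ i, ¬ Inside U (S i)ᶜ t} s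
  · left
    refine hs.inside ?_
    rintro t ⟨i, hi⟩
    exact ((h i t).resolve_right hi).mono (subset_iUnion S i)
  · exact Or.inr (fusion hs)

theorem not_inside_compl {S : Set (ℕ → ℕ)} {s : List ℕ} (h : ¬ Inside U Sᶜ s) :
    ∃ b ∈ S, pre b s.length = s := by
  by_contra hcon
  push Not at hcon
  refine h ⟨fun _ => univ, fun _ => univ_mem, fun b hb hbS => hcon b hbS hb.1⟩

/-- the points of `S` with a code that begins with `σ` -/
def part (F : (ℕ → ℕ) → (ℕ → ℕ)) (σ : List ℕ) : Set (ℕ → ℕ) := F '' {z | pre z σ.length = σ}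

theorem part_eq (F : (ℕ → ℕ) → (ℕ → ℕ)) (σ : List ℕ) :
    part F σ = ⋃ i, part F (i :: σ) := by
  ext b
  simp only [part, mem_image, mem_ofPred_eq, mem_iUnion, List.length_cons, pre_succ,
    List.cons.injEq]
  constructor
  · rintro ⟨z, hz, rfl⟩
    exact ⟨z σ.length, z, ⟨rfl, hz⟩, rfl⟩
  · rintro ⟨i, z, ⟨-, hz⟩, rfl⟩
    exact ⟨z, hz, rfl⟩

theorem alive_step (F : (ℕ → ℕ) → (ℕ → ℕ)) {t σ : List ℕ} (h : ¬ Inside U (part F σ)ᶜ t) :
    Inside U {b | ∃ k, t.length < k ∧ ∃ i, ¬ Inside U (part F (i :: σ))ᶜ (pre b k)} t := by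
  apply inside_of_step
  have h1 : {n | Inside U (part F σ)ᶜ (n :: t)} ∉ U := fun h2 => h (inside_of_step h2)
  have h2 := Ultrafilter.compl_mem_iff_notMem.2 h1
  refine mem_of_superset h2 fun n hn => ?_
  have h3 : Hit U {t | ∃ i, ¬ Inside U (part F (i :: σ))ᶜ t} (n :: t) := by
    by_contra hcon
    apply hn
    have h4 := fusion hcon
    rw [← part_eq] at h4
    exact h4
  refine h3.hits.mono ?_
  rintro b ⟨k, hk, hkW⟩
  exact ⟨k, by rw [List.length_cons] at hk; omega, hkW⟩

open Classical in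
/-- the bookkeeping: the last node at which the code was extended, and the code -/
noncomputable def st (P : List ℕ → List ℕ → Prop) (s : List ℕ) : List ℕ → List ℕ × List ℕ
  | [] => (s, [])
  | n :: v =>
    if n :: v = s then (s, [])
    else if h : ∃ i, P (n :: v) (i :: (st P s v).2) then (n :: v, h.choose :: (st P s v).2)
    else st P s v

theorem inside_range {F : (ℕ → ℕ) → (ℕ → ℕ)} (hF : Continuous F) {s : List ℕ}
    (hs : ¬ Inside U (range F)ᶜ s) : Inside U (range F) s := by
  classical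
  let P : List ℕ → List ℕ → Prop := fun t σ => ¬ Inside U (part F σ)ᶜ t
  have hP0 : P s [] := by
    simp only [P, part, List.length_nil, pre_zero, Set.ofPred_true, image_univ]
    exact hs
  let Q : List ℕ → List ℕ → List ℕ → Set ℕ := fun t σ =>
    if h : P t σ then (alive_step F h).choose else fun _ => univ
  have hQ : ∀ t σ u, Q t σ u ∈ U := by
    intro t σ u
    by_cases hn : P t σ
    · simp only [Q, dif_pos hn]
      exact (alive_step F hn).choose_spec.1 u
    · simp only [Q, dif_neg hn]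
      exact univ_mem
  have hQ' : ∀ t σ, P t σ → ∀ b, Br (Q t σ) t b →
      ∃ k, t.length < k ∧ ∃ i, P (pre b k) (i :: σ) := by
    intro t σ hn b hb
    simp only [Q, dif_pos hn] at hb
    exact (alive_step F hn).choose_spec.2 b hb
  refine ⟨fun u => Q (st P s u).1 (st P s u).2 u, fun u => hQ _ _ _, fun b hb => ?_⟩
  -- the state after `s`
  have hst0 : st P s (pre b s.length) = (s, []) := by
    rw [hb.1]
    cases s with
    | nil => rfl
    | cons n v => simp [st]
  have hstep : ∀ k, s.length ≤ k →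
      (∃ i, P (pre b (k + 1)) (i :: (st P s (pre b k)).2) ∧
        st P s (pre b (k + 1)) = (pre b (k + 1), i :: (st P s (pre b k)).2)) ∨
      ((¬ ∃ i, P (pre b (k + 1)) (i :: (st P s (pre b k)).2)) ∧
        st P s (pre b (k + 1)) = st P s (pre b k)) := by
    intro k hk
    have hne : b k :: pre b k ≠ s := by
      intro h
      have := congrArg List.length h
      rw [List.length_cons, pre_length] at this
      omega
    by_cases h : ∃ i, P (b k :: pre b k) (i :: (st P s (pre b k)).2)
    · left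
      refine ⟨h.choose, h.choose_spec, ?_⟩
      rw [pre_succ]
      simp only [st, if_neg hne, dif_pos h]
    · right
      refine ⟨h, ?_⟩
      rw [pre_succ]
      simp only [st, if_neg hne, dif_neg h]
  -- good stages
  let G : ℕ × List ℕ → Prop := fun x =>
    s.length ≤ x.1 ∧ st P s (pre b x.1) = (pre b x.1, x.2) ∧ P (pre b x.1) x.2
  have hG0 : G (s.length, []) := by
    refine ⟨le_rfl, ?_, ?_⟩
    · rw [hst0, hb.1]
    · rw [hb.1]
      exact hP0
  have hGstep : ∀ x, G x → ∃ k' i, x.1 < k' ∧ G (k', i :: x.2) := by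
    rintro ⟨k, σ⟩ ⟨hk, hst, hP⟩
    simp only at hk hst hP
    by_contra hcon
    push Not at hcon
    have hnext : ∀ j, k ≤ j → st P s (pre b j) = (pre b k, σ) →
        (¬ ∃ i, P (pre b (j + 1)) (i :: σ)) ∧ st P s (pre b (j + 1)) = (pre b k, σ) := by
      intro j hj hjs
      rcases hstep j (hk.trans hj) with ⟨i, h1, h2⟩ | ⟨h1, h2⟩
      · exfalso
        rw [hjs] at h1 h2
        exact hcon (j + 1) i (Nat.lt_succ_of_le hj) ⟨(hk.trans hj).trans (Nat.le_succ j), h2, h1⟩
      · rw [hjs] at h1 h2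
        exact ⟨h1, h2⟩
    -- the state never changes
    have hconst : ∀ j, k ≤ j → st P s (pre b j) = (pre b k, σ) := by
      intro j hj
      induction j, hj using Nat.le_induction with
      | base => exact hst
      | succ j hj ih => exact (hnext j hj ih).2
    have hbr : Br (Q (pre b k) σ) (pre b k) b := by
      refine ⟨by rw [pre_length], fun j hj => ?_⟩
      rw [pre_length] at hj
      have h1 : b j ∈ Q (st P s (pre b j)).1 (st P s (pre b j)).2 (pre b j) :=
        hb.2 j (hk.trans hj)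
      rw [hconst j hj] at h1
      exact h1
    obtain ⟨k', hk', i, hi⟩ := hQ' _ _ hP b hbr
    rw [pre_length] at hk'
    obtain ⟨j, rfl⟩ : ∃ j, k' = j + 1 := ⟨k' - 1, by omega⟩
    exact (hnext j (by omega) (hconst j (by omega))).1 ⟨i, hi⟩
  choose! K I hK hGI using hGstep
  let x : ℕ → ℕ × List ℕ := fun j => Nat.rec (s.length, []) (fun _ y => (K y, I y :: y.2)) j
  have hx0 : x 0 = (s.length, []) := rfl
  have hx1 : ∀ j, x (j + 1) = (K (x j), I (x j) :: (x j).2) := fun j => rfl
  have hxG : ∀ j, G (x j) := by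
    intro j
    induction j with
    | zero => exact hG0
    | succ j ih => rw [hx1]; exact hGI _ ih
  let z : ℕ → ℕ := fun j => I (x j)
  have hxz : ∀ j, (x j).2 = pre z j := by
    intro j
    induction j with
    | zero => rfl
    | succ j ih => rw [hx1, pre_succ, ← ih]
  have hxk : ∀ j, j ≤ (x j).1 := by
    intro j
    induction j with
    | zero => exact Nat.zero_le _
    | succ j ih =>
      rw [hx1]
      exact (Nat.succ_le_succ ih).trans (hK _ (hxG j))
  have happ : ∀ j, ∃ z', pre z' j = pre z j ∧ pre (F z') (x j).1 = pre b (x j).1 := by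
    intro j
    obtain ⟨b', hb', hb''⟩ := not_inside_compl (hxG j).2.2
    obtain ⟨z', hz', rfl⟩ := hb'
    refine ⟨z', ?_, ?_⟩
    · have h1 : pre z' (x j).2.length = (x j).2 := hz'
      rw [hxz, pre_length] at h1
      exact h1
    · rw [pre_length] at hb''
      exact hb''
  choose z' hz1 hz2 using happ
  have hz1' : Tendsto z' atTop (𝓝 z) := by
    rw [tendsto_pi_nhds]
    intro n
    refine tendsto_const_nhds.congr' ?_
    filter_upwards [eventually_gt_atTop n] with j hj
    exact ((pre_eq_iff _ _ _).1 (hz1 j) n hj).symm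
  have hz2' : Tendsto (fun j => F (z' j)) atTop (𝓝 b) := by
    rw [tendsto_pi_nhds]
    intro n
    refine tendsto_const_nhds.congr' ?_
    filter_upwards [eventually_gt_atTop n] with j hj
    exact ((pre_eq_iff _ _ _).1 (hz2 j) n (hj.trans_le (hxk j))).symm
  have hlim : F z = b := tendsto_nhds_unique ((hF.tendsto z).comp hz1') hz2'
  exact ⟨z, hlim⟩

theorem URam.of_analytic {S : Set (ℕ → ℕ)} (hS : AnalyticSet S) : URam U S := by
  intro s
  rw [AnalyticSet] at hS
  rcases hS with rfl | ⟨F, hF, rfl⟩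
  · right
    exact ⟨fun _ => univ, fun _ => univ_mem, fun b _ h => h⟩
  · by_cases hs : Inside U (range F)ᶜ s
    · exact Or.inr hs
    · exact Or.inl (inside_range hF hs)

end Helper9Wfc
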