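import Pool.Agent.Helper9Wfc.Basic
import Pool.Agent.Helper9Wfc.UTree

set_option autoImplicit false

open Set Filter Topology MeasureTheory

namespace Helper9Wfc

theorem exists_branch (R : List ℕ → Set ℕ) (hR : ∀ t, (R t).Nonempty) : ∃ b, Br R [] b := by
  choose g hg using hR
  let L : ℕ → List ℕ := fun k => Nat.rec [] (fun _ l => g l :: l) k
  have hL : ∀ k, L (k + 1) = g (L k) :: L k := fun k => rfl
  have h1 : ∀ k, pre (fun k => g (L k)) k = L k := by
    intro k
    induction k with
    | zero => rfl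
    | succ k ih => rw [pre_succ, hL, ih]
  refine ⟨fun k => g (L k), rfl, fun k _ => ?_⟩
  rw [h1]
  exact hg _

theorem pre_comp_sublist (b : ℕ → ℕ) {φ : ℕ → ℕ} (hφ : StrictMono φ) (k : ℕ) :
    (pre (b ∘ φ) k).Sublist (pre b (φ k)) := by
  induction k with
  | zero => exact List.nil_sublist _
  | succ k ih =>
    have h1 : (b (φ k) :: pre (b ∘ φ) k).Sublist (b (φ k) :: pre b (φ k)) := ih.cons_cons _
    have h2 : (b (φ k) :: pre b (φ k)) <:+ pre b (φ (k + 1)) := by
      rw [← pre_succ]
      exact pre_suffix b (hφ (Nat.lt_succ_self k))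
    rw [pre_succ]
    exact h1.trans h2.sublist

/-- the range of a sequence as a point of the Cantor space -/
noncomputable def rng (b : ℕ → ℕ) : ℕ → Bool := by
  classical
  exact fun n => decide (∃ k, b k = n)

theorem measurable_rng : Measurable rng := by
  refine measurable_pi_iff.2 fun n => ?_
  refine measurable_to_bool ?_
  have h1 : (fun b => rng b n) ⁻¹' {true} = ⋃ k, {b : ℕ → ℕ | b k = n} := by
    ext b
    simp [rng]
  rw [h1]
  refine MeasurableSet.iUnion fun k => ?_
  exact measurableSet_eq_fun (measurable_pi_apply k) measurable_const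

theorem analytic_preimage_rng {S : Set (ℕ → Bool)} (hS : AnalyticSet S) :
    AnalyticSet (rng ⁻¹' S) := by
  obtain ⟨t', ht', hc, hp⟩ := measurable_rng.exists_continuous
  have h1 : @AnalyticSet (ℕ → ℕ) t' (rng ⁻¹' S) :=
    @AnalyticSet.preimage (ℕ → ℕ) (ℕ → Bool) t' _ hp _ S hS rng hc
  have h2 := @AnalyticSet.image_of_continuous (ℕ → ℕ) t' (ℕ → ℕ) Pi.topologicalSpace
    (rng ⁻¹' S) h1 id (continuous_id_iff_le.2 ht')
  rwa [image_id] at h2

theorem uram_preimage_rng {U : Ultrafilter ℕ} {S : Set (ℕ → Bool)}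
    (hS : MeasurableSet[MeasurableSpace.generateFrom {S : Set (ℕ → Bool) | AnalyticSet S}] S) :
    URam U (rng ⁻¹' S) := by
  induction S, hS using MeasurableSpace.generateFrom_induction with
  | hC S hS _ => exact URam.of_analytic (analytic_preimage_rng hS)
  | empty =>
    rw [preimage_empty]
    exact fun s => Or.inr ⟨fun _ => univ, fun _ => univ_mem, fun b _ h => h⟩
  | compl S _ ih => exact ih.compl
  | iUnion S _ ih =>
    rw [preimage_iUnion]
    exact URam.iUnion ih

theorem image_rng {X : Type*} (a : ℕ → X) (b : ℕ → ℕ) :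
    a '' {n | rng b n = true} = range (a ∘ b) := by
  ext x
  simp [rng]

/-- In a compact Hausdorff sequential space, if `p` is in the closure of the range of `a` and the
trace of the neighbourhoods of `p` on `a` is in the sigma-algebra generated by the analytic sets,
then a sequence of terms of `a` converges to `p`. -/
theorem exists_seq_of_measurable {X : Type*} [TopologicalSpace X] [CompactSpace X] [T2Space X]
    [SequentialSpace X] (a : ℕ → X) (p : X) (hp : p ∈ closure (range a))
    (hm : MeasurableSet[MeasurableSpace.generateFrom {S : Set (ℕ → Bool) | AnalyticSet S}]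
      {χ : ℕ → Bool | p ∈ closure (a '' {n | χ n = true})}) :
    ∃ c : ℕ → ℕ, Tendsto (a ∘ c) atTop (𝓝 p) := by
  -- an ultrafilter that converges to `p` along `a`
  have hne : (comap a (𝓝 p)).NeBot := by
    rw [comap_neBot_iff]
    intro t ht
    obtain ⟨_, hx, ⟨n, rfl⟩⟩ := mem_closure_iff_nhds.1 hp t ht
    exact ⟨n, hx⟩
  let U : Ultrafilter ℕ := Ultrafilter.of (comap a (𝓝 p))
  have hU : Tendsto a U (𝓝 p) := tendsto_iff_comap.2 (Ultrafilter.of_le _)
  have hram := uram_preimage_rng (U := U) hm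
  have hmem : ∀ b : ℕ → ℕ, b ∈ rng ⁻¹' {χ : ℕ → Bool | p ∈ closure (a '' {n | χ n = true})} ↔
      p ∈ closure (range (a ∘ b)) := by
    intro b
    rw [← image_rng]
    rfl
  rcases hram [] with ⟨R, hR, hb⟩ | ⟨R, hR, hb⟩
  · -- all branches accumulate at `p`: pass to a hereditary tree
    obtain ⟨b, hbb⟩ := exists_branch (fun t => {m | ∀ t' ∈ t.sublists, m ∈ R t'})
      (fun t => U.nonempty_of_mem (all_list_mem t.sublists R fun t' _ => hR t'))
    refine ⟨b, ?_⟩
    have hsub : ∀ φ : ℕ → ℕ, StrictMono φ → p ∈ closure (range (a ∘ (b ∘ φ))) := by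
      intro φ hφ
      rw [← hmem]
      apply hb
      refine ⟨rfl, fun k _ => ?_⟩
      refine hbb.2 (φ k) (Nat.zero_le _) _ ?_
      rw [List.mem_sublists]
      exact pre_comp_sublist b hφ k
    rw [tendsto_nhds]
    intro O hO hpO
    by_contra hcon
    have hcon' : ¬ ∀ᶠ k in atTop, (a ∘ b) k ∈ O := hcon
    have hfr : ∃ᶠ k in atTop, (a ∘ b) k ∉ O := not_eventually.1 hcon'
    obtain ⟨φ, hφ, hφ'⟩ := extraction_of_frequently_atTop hfr
    obtain ⟨_, hx, ⟨k, rfl⟩⟩ := mem_closure_iff.1 (hsub φ hφ) O hO hpO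
    exact hφ' k hx
  · -- no branch accumulates at `p`: a contradiction
    exfalso
    let Q : Set X := {q | ∃ c : ℕ → ℕ, Tendsto (a ∘ c) atTop (𝓝 q) ∧
      ∀ t, ∀ᶠ i in atTop, c i ∈ R t}
    have hpQ : p ∈ closure Q := by
      rw [mem_closure_iff_nhds]
      intro O hO
      obtain ⟨C, hC, hCc, hCO⟩ := exists_mem_nhds_isClosed_subset hO
      obtain ⟨e, he⟩ := exists_surjective_nat (List ℕ)
      have h1 : ∀ i : ℕ, ∃ m, (∀ j ∈ Iic i, m ∈ R (e j)) ∧ a m ∈ C := by
        intro i
        have h2 : {m | ∀ j ∈ Iic i, m ∈ R (e j)} ∈ U :=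
          (eventually_all_finite (finite_Iic i)).2 fun j _ => hR (e j)
        obtain ⟨m, hm1, hm2⟩ := U.nonempty_of_mem (inter_mem h2 (hU hC))
        exact ⟨m, hm1, hm2⟩
      choose c hc1 hc2 using h1
      obtain ⟨q, φ, hφ, hq⟩ := SeqCompactSpace.tendsto_subseq (fun i => a (c i))
      have hqC : q ∈ C := hCc.mem_of_tendsto hq (Eventually.of_forall fun i => hc2 (φ i))
      refine ⟨q, hCO hqC, c ∘ φ, hq, fun t => ?_⟩
      obtain ⟨j, rfl⟩ := he t
      filter_upwards [eventually_ge_atTop j] with i hi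
      exact hc1 (φ i) j (hi.trans (hφ.id_le i))
    obtain ⟨Q0, hQ0, hQ0c, hpQ0⟩ := countable_tight hpQ
    have hQ0n : Q0.Nonempty := closure_nonempty_iff.1 ⟨p, hpQ0⟩
    obtain ⟨q, rfl⟩ := hQ0c.exists_eq_range hQ0n
    have hq : ∀ m, ∃ c : ℕ → ℕ, Tendsto (a ∘ c) atTop (𝓝 (q m)) ∧
      ∀ t, ∀ᶠ i in atTop, c i ∈ R t := fun m => hQ0 (mem_range_self m)
    choose c hc1 hc2 using hq
    obtain ⟨b, hbb⟩ := exists_branch
      (fun t => R t ∩ {m | ∃ i, t.length ≤ i ∧ m = c (Nat.unpair t.length).1 i}) (by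
        intro t
        obtain ⟨i, hi1, hi2⟩ := ((hc2 (Nat.unpair t.length).1 t).and
          (eventually_ge_atTop t.length)).exists
        exact ⟨_, hi1, i, hi2, rfl⟩)
    have hbR : Br R [] b := hbb.mono fun t => inter_subset_left
    have hbD : ∀ k, ∃ i, k ≤ i ∧ b k = c (Nat.unpair k).1 i := by
      intro k
      obtain ⟨i, hi1, hi2⟩ := (hbb.2 k (Nat.zero_le _)).2
      rw [pre_length] at hi1 hi2
      exact ⟨i, hi1, hi2⟩
    choose i hi1 hi2 using hbD
    have hqcl : range q ⊆ closure (range (a ∘ b)) := by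
      rintro _ ⟨m, rfl⟩
      have hlim : Tendsto (fun j => i (Nat.pair m j)) atTop atTop := by
        refine tendsto_atTop_mono (fun j => ?_) tendsto_id
        exact (Nat.right_le_pair m j).trans (hi1 _)
      have h2 := (hc1 m).comp hlim
      refine mem_closure_of_tendsto h2 (Eventually.of_forall fun j => ?_)
      refine ⟨Nat.pair m j, ?_⟩
      have h3 := hi2 (Nat.pair m j)
      rw [Nat.unpair_pair] at h3
      simp only [Function.comp_apply]
      rw [h3]
    have hpb : p ∈ closure (range (a ∘ b)) := closure_minimal hqcl isClosed_closure hpQ0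
    exact hb b hbR ((hmem b).2 hpb)

end Helper9Wfc
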